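import Pool.Agent.Lib.MP_2e793b_nt.H04.Unb
import Pool.Agent.Lib.MP_2e793b_nt.H06.PHT
import Pool.Agent.Lib.MP_2e793b_nt.H06.SIEV
import Pool.Agent.Lib.MP_2e793b_nt.H10.Main
import Pool.Agent.Lib.MP_2e793b_nt.H16.Serp
import Pool.Agent.Lib.MP_2e793b_nt.H18.Mono
import Pool.Agent.Lib.MP_2e793b_nt.H10.Sqf
import Pool.Agent.Lib.MP_2e793b_nt.H22.Nf
import Pool.Agent.Lib.MP_2e793b_nt.H30.Canon
import Pool.Agent.Lib.MP_2e793b_nt.H31.VALB
import Pool.Agent.Lib.MP_2e793b_nt.H36.Dil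
import Pool.Agent.Lib.MP_2e793b_nt.H40.Per
import Pool.Agent.Lib.MP_2e793b_nt.H44.Rept
import Pool.Agent.Lib.MP_2e793b_nt.H45.Mz
import Pool.Agent.Lib.MP_2e793b_nt.H47.Phlow
import Pool.Agent.Lib.MP_2e793b_nt.H49.CHI
import Pool.Agent.Lib.MP_2e793b_nt.H59.Loc
import Pool.Agent.Lib.MP_2e793b_nt.H61.Divavg
import Pool.Agent.Lib.MP_2e793b_nt.H61.Pap
import Pool.Agent.Lib.MP_2e793b_nt.H10.Sqc
import Pool.Agent.Lib.MP_2e793b_nt.H10.Tail
import Pool.Agent.Lib.MP_2e793b_nt.H65.ROOTS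
import Pool.Agent.Lib.MP_2e793b_nt.H67.Gp
import Pool.Agent.Lib.MP_2e793b_nt.H74.Dig
import Pool.Agent.Lib.MP_2e793b_nt.H88.Cnt
import Pool.Agent.Lib.MP_2e793b_nt.H89.WindowRow
import Pool.Agent.Lib.MP_2e793b_nt.H96.Bdp

/-!
MP_2e793b_nt: all modules together.
-/

set_option autoImplicit false

namespace Pool.Agent.Lib.MP_2e793b_nt

theorem all_rept : ReptStmt := H44.rept H65.roots

theorem all_nf : NfStmt := H22.nf (H88.cnt H04.unb) (H40.per H96.bdp)

theorem all_canon : CanonStmt := H30.canon H31.valb H16.serp H18.mono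

theorem all_sqc : SqcStmt :=
  H10.sqc (H06.siev (H47.phlow (H06.pht H49.chi))) H59.loc (H10.sqf H65.roots)

theorem all_tail : TailStmt := H10.tail (H61.divavg H65.roots) all_rept

theorem all_gp : GpStmt := H67.gp H61.pap all_sqc all_tail

/-- The main theorem, without hypotheses. -/
theorem close : MainStmt :=
  H10.main all_nf H74.dig all_canon H89.windowRow (H45.mz all_rept) H36.dil all_gp

end Pool.Agent.Lib.MP_2e793b_nt
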