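import Mathlib

/-!
MP_2e793b_nt: the digits of a quadratic irrational number are not generated by a morphism of at
most quadratic growth.  Definitions used in the proof (see Paper.md).
-/

set_option autoImplicit false

namespace Pool.Agent.Lib.MP_2e793b_nt

open Finset

/-! ### Words -/

/-- the map on words induced by the morphism `σ` -/
abbrev F {k : ℕ} (σ : Fin k → List (Fin k)) : List (Fin k) → List (Fin k) :=
  fun l => l.flatMap σ

/-- the letter `x` is bounded: the lengths of its iterated images are bounded -/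
def Bdd {k : ℕ} (σ : Fin k → List (Fin k)) (x : Fin k) : Prop :=
  ∃ B : ℕ, ∀ n : ℕ, ((F σ)^[n] [x]).length ≤ B

/-- the block number `m`: every piece `(p, s)` contributes `p s^m` -/
def blk {α : Type} (zy : List (List α × List α)) (m : ℕ) : List α :=
  zy.flatMap (fun q => q.1 ++ (List.replicate m q.2).flatten)

/-- the word `z₀ block_0 block_1 … block_{M-1}` -/
def nf {α : Type} (z0 : List α) (zy : List (List α × List α)) (M : ℕ) : List α :=
  z0 ++ (List.range M).flatMap (blk zy)

/-- total length of the first components -/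
def len1 {α : Type} (zy : List (List α × List α)) : ℕ := (zy.map (fun q => q.1.length)).sum

/-- total length of the second components -/
def len2 {α : Type} (zy : List (List α × List α)) : ℕ := (zy.map (fun q => q.2.length)).sum

/-! ### Series -/

/-- the value `∑ v_i b^{-(i+1)}` of a word of digits -/
noncomputable def val (b : ℕ) (v : List ℤ) : ℝ := v.foldr (fun d s => ((d : ℝ) + s) / b) 0

/-- canonical form: `D x = R + ∑_{u ≥ 0} C(u) b^{-⌊u²/T⌋}` with integers `C(u)`, periodic modulo `T` -/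
def Can (b T : ℕ) (x : ℝ) : Prop := ∃ (D R : ℤ) (C : ℕ → ℤ), D ≠ 0 ∧ (∀ u, C (u + T) = C u) ∧
  HasSum (fun u : ℕ => (C u : ℝ) / (b : ℝ) ^ (u ^ 2 / T)) (D * x - R)

/-- the real weights: `C(u) b^{-⌊u²/T⌋} = wt(u) b^{-u²/T}` -/
noncomputable def wt (b T : ℕ) (C : ℕ → ℤ) (u : ℕ) : ℝ :=
  (C u : ℝ) * (b : ℝ) ^ (((u ^ 2 % T : ℕ) : ℝ) / (T : ℝ))

/-! ### Sums of two squares -/

/-- the pairs `(u, v)` of natural numbers with `u² + v² = n` -/
def prs (n : ℕ) : Finset (ℕ × ℕ) :=
  (range (n + 1) ×ˢ range (n + 1)).filter (fun p => p.1 ^ 2 + p.2 ^ 2 = n)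

/-- the number of pairs `(u, v)` of natural numbers with `u² + v² = n` -/
def rep (n : ℕ) : ℕ := (prs n).card

/-- the weighted number of representations -/
noncomputable def RR (w : ℕ → ℝ) (n : ℕ) : ℝ := ∑ p ∈ prs n, w p.1 * w p.2

/-- the primes `p ≡ 3 mod 4` with `(a / p) = -1` -/
def PP (a : ℤ) (p : ℕ) : Prop := p.Prime ∧ p % 4 = 3 ∧ jacobiSym a p = -1

/-- lower end of the range of the sieving primes -/
noncomputable def yy (X : ℕ) : ℕ := ⌊(Real.log X) ^ 2⌋₊

/-- upper end of the range of the sieving primes -/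
noncomputable def zz (B X : ℕ) : ℕ := ⌊(X : ℝ) ^ ((1 : ℝ) / B)⌋₊

end Pool.Agent.Lib.MP_2e793b_nt
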