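import Pool.Agent.Lib.MP_2e793b_nt.Defs

/-!
MP_2e793b_nt: statements of the modules of the board mdq_modules.  Proofs in words: Paper.md (same
names).  A module proves `theorem x (h : OtherStmt) … : XStmt`; the hypotheses allowed are named in
the docstring (from …).
-/

set_option autoImplicit false

namespace Pool.Agent.Lib.MP_2e793b_nt

open Finset
open scoped Classical

/-! ## Group A: words -/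

/-- UNB. An unbounded letter grows at least linearly. -/
def UnbStmt : Prop := ∀ (k : ℕ) (σ : Fin k → List (Fin k)) (x : Fin k), ¬ Bdd σ x →
  ∀ n : ℕ, n < k * ((F σ)^[n] [x]).length

/-- CNT. Quadratic growth: from some point on every unbounded letter has exactly one unbounded
letter in its image. (from UNB) -/
def CntStmt : Prop := ∀ (k : ℕ) (σ : Fin k → List (Fin k)) (w : List (Fin k)) (K : ℕ),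
  (∀ n : ℕ, ∑ j ∈ range n, ((F σ)^[j] w).length ≤ K * (n + 1) ^ 2) →
  ∃ J : ℕ, ∀ j : ℕ, J ≤ j → ∀ y ∈ (F σ)^[j] w, ¬ Bdd σ y →
    ∃ (p : List (Fin k)) (z : Fin k) (s : List (Fin k)), σ y = p ++ [z] ++ s ∧ ¬ Bdd σ z ∧
      (∀ t ∈ p, Bdd σ t) ∧ ∀ t ∈ s, Bdd σ t

/-- BDP. Bounded letters are eventually periodic, with a common period. -/
def BdpStmt : Prop := ∀ (k : ℕ) (σ : Fin k → List (Fin k)), ∃ P : ℕ, 1 ≤ P ∧ ∀ z : Fin k, Bdd σ z →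
  ∀ n : ℕ, P ≤ n → ∀ t : ℕ, (F σ)^[n + t * P] [z] = (F σ)^[n] [z]

/-- PER. Periodicity of the letters. (from BDP) -/
def PerStmt : Prop := ∀ (k : ℕ) (σ : Fin k → List (Fin k)) (w : List (Fin k)),
  (∃ J : ℕ, ∀ j : ℕ, J ≤ j → ∀ y ∈ (F σ)^[j] w, ¬ Bdd σ y →
    ∃ (p : List (Fin k)) (z : Fin k) (s : List (Fin k)), σ y = p ++ [z] ++ s ∧ ¬ Bdd σ z ∧
      (∀ t ∈ p, Bdd σ t) ∧ ∀ t ∈ s, Bdd σ t) →
  ∃ J P : ℕ, 1 ≤ P ∧ ∀ j : ℕ, J ≤ j → ∀ y ∈ (F σ)^[j] w,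
    ((F σ)^[P] ((F σ)^[P] [y]) = (F σ)^[P] [y]) ∨
    ∃ p s : List (Fin k), (F σ)^[P] [y] = p ++ [y] ++ s ∧
      (F σ)^[P] ((F σ)^[P] p) = (F σ)^[P] p ∧ (F σ)^[P] ((F σ)^[P] s) = (F σ)^[P] s

/-- NF. Normal form of the prefixes. (from CNT, PER) -/
def NfStmt : Prop := ∀ (k : ℕ) (σ : Fin k → List (Fin k)) (a : Fin k) (w : List (Fin k)) (K : ℕ),
  σ a = a :: w → (∀ n : ℕ, ((F σ)^[n] [a]).length ≤ K * (n + 1) ^ 2) →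
  ∃ (z0 : List (Fin k)) (zy : List (List (Fin k) × List (Fin k))) (N : ℕ → ℕ),
    (∀ M, M ≤ N M) ∧ ∀ M, (F σ)^[N M] [a] = nf z0 zy M

/-! ## Group B: series -/

/-- DIG. The digits of `ξ`. -/
def DigStmt : Prop := ∀ (b : ℕ) (ξ : ℝ), 2 ≤ b →
  HasSum (fun n : ℕ => ((⌊ξ * (b : ℝ) ^ (n + 1)⌋ % (b : ℤ) : ℤ) : ℝ) / (b : ℝ) ^ (n + 1)) (ξ - ⌊ξ⌋)

/-- VALB. The value of a block is an exponential sum in `m`. -/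
def ValbStmt : Prop := ∀ (b : ℕ) (zy : List (List ℤ × List ℤ)), 2 ≤ b →
  ∃ (D : ℤ) (J : List (ℤ × ℕ)), D ≠ 0 ∧ ∀ m : ℕ, (D : ℝ) * val b (blk zy m) =
    (J.map (fun j => (j.1 : ℝ) / (b : ℝ) ^ (j.2 * m))).sum

/-- SERP. Sum over the blocks. -/
def SerpStmt : Prop := ∀ (b : ℕ) (z0 : List ℤ) (zy : List (List ℤ × List ℤ)) (d : ℕ → ℤ), 2 ≤ b →
  (∀ n, 0 ≤ d n ∧ d n < b) → (∀ (M i : ℕ) (x : ℤ), (nf z0 zy M)[i]? = some x → d i = x) →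
  1 ≤ len1 zy + len2 zy →
  HasSum (fun m : ℕ => val b (blk zy m) /
      (b : ℝ) ^ (z0.length + (len1 zy * m + len2 zy * (m * (m - 1) / 2))))
    ((∑' n : ℕ, (d n : ℝ) / (b : ℝ) ^ (n + 1)) - val b z0)

/-- MONO. One quadratic series is in canonical form. -/
def MonoStmt : Prop := ∀ b G Y : ℕ, 2 ≤ b → 1 ≤ Y →
  Summable (fun m : ℕ => 1 / (b : ℝ) ^ (G * m + Y * (m * (m - 1) / 2))) ∧
  Can b (8 * Y) (∑' m : ℕ, 1 / (b : ℝ) ^ (G * m + Y * (m * (m - 1) / 2)))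

/-- CANON. The canonical form of a number whose digits are in normal form. (from VALB, SERP, MONO) -/
def CanonStmt : Prop := ∀ (b : ℕ) (z0 : List ℤ) (zy : List (List ℤ × List ℤ)) (d : ℕ → ℤ), 2 ≤ b →
  (∀ n, 0 ≤ d n ∧ d n < b) → (∀ (M i : ℕ) (x : ℤ), (nf z0 zy M)[i]? = some x → d i = x) →
  1 ≤ len1 zy + len2 zy → ∃ T : ℕ, 1 ≤ T ∧ Can b T (∑' n : ℕ, (d n : ℝ) / (b : ℝ) ^ (n + 1))

/-! ## Group C: the window -/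

/-- WINDOW. -/
def WindowStmt : Prop := ∀ (b T : ℕ) (C : ℕ → ℤ) (A B E : ℤ) (x : ℝ), 2 ≤ b → 1 ≤ T →
  (∀ u, C (u + T) = C u) → A ≠ 0 →
  HasSum (fun u : ℕ => (C u : ℝ) / (b : ℝ) ^ (u ^ 2 / T)) x → A * x ^ 2 + B * x + E = 0 →
  ∃ K : ℕ, ∀ n H : ℕ, K ≤ H → H ≤ n →
    (∀ u v : ℕ, u ^ 2 + v ^ 2 ≠ n → u ^ 2 + v ^ 2 + H < n ∨ n + H < u ^ 2 + v ^ 2) →
    ¬ IsSquare n → (∀ h, H < h → rep (n + h) ^ (4 * T) ≤ b ^ h) → rep n ^ (4 * T) ≤ b ^ H →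
    RR (wt b T C) n = 0

/-! ## Group D: the second moment -/

/-- EN. The energy inequality. -/
def EnStmt : Prop := ∀ (U : ℕ) (a : ℕ → ℝ), (∑ u ∈ range U, a u ^ 2) ^ 2 ≤
  ∑ k ∈ range (2 * U ^ 2 + 1),
    (∑ p ∈ (range U ×ˢ range U).filter (fun p => p.1 ^ 2 + p.2 ^ 2 = k), a p.1 * a p.2) ^ 2

/-- SM. Second moment from below. (from EN) -/
def SmStmt : Prop := ∀ (T : ℕ) (w : ℕ → ℝ), 1 ≤ T → (∀ u, w (u + T) = w u) → (∃ u, w u ≠ 0) →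
  ∃ N₀ : ℕ, ∀ N : ℕ, N₀ ≤ N → (N : ℝ) ^ (9 / 10 : ℝ) ≤ ∑ k ∈ Icc 1 N, RR w k ^ 2

/-- MZ. The choice of `m`. (from SM, REPT and the divisor bound `MP_ba0fa5_ag.AA.H54.divb`) -/
def MzStmt : Prop := ∀ (T : ℕ) (w : ℕ → ℝ), 1 ≤ T → (∀ u, w (u + T) = w u) → (∃ u, w u ≠ 0) →
  ∃ N₀ : ℕ, ∀ N : ℕ, N₀ ≤ N → ∃ m : ℕ, 1 ≤ m ∧ m ≤ N ∧ RR w m ≠ 0 ∧
    ∀ h : ℕ, 0 < h → h ^ 2 ≤ N → ¬ IsSquare (h * m)

/-! ## Group E: representations and divisors -/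

/-- ROOTS. Number of roots of `m x² + h` modulo `d`. -/
def RootsStmt : Prop := ∀ (m d : ℕ) (h : ℤ), 1 ≤ m → 1 ≤ d → h ≠ 0 →
  ((range d).filter (fun x : ℕ => (d : ℤ) ∣ m * (x : ℤ) ^ 2 + h)).card ≤
    4 * m * h.natAbs * d.divisors.card

/-- DIVAVG. Divisors of `m q² + h` on average. (from ROOTS) -/
def DivavgStmt : Prop := ∀ m h X : ℕ, 1 ≤ m → 1 ≤ h → 1 ≤ X →
  ((∑ q ∈ Icc 1 X, (m * q ^ 2 + h).divisors.card : ℕ) : ℝ) ≤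
    24 * (m : ℝ) ^ 2 * (h : ℝ) ^ 2 * X * (1 + Real.log (m * X + h)) ^ 2

/-- REPT. (from ROOTS) -/
def ReptStmt : Prop := ∀ n : ℕ, 1 ≤ n → rep n ≤ 16 * n.divisors.card ^ 2

/-- DIL. Dilation by a prime `q ≡ -1 mod 4T`. -/
def DilStmt : Prop := ∀ (T m q : ℕ) (w : ℕ → ℝ), 1 ≤ T → 1 ≤ m → q.Prime →
  q % (4 * T) = 4 * T - 1 → (∀ u, w (u + T) = w u) →
  RR w (m * q ^ 2) = RR (fun u => w ((T - 1) * u)) m ∧ rep (m * q ^ 2) = rep m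

/-! ## Group F: primes and sieve -/

/-- PAP. Primes in one progression. (from `MP_ba0fa5_ag.AA.H38.mertap`) -/
def PapStmt : Prop := ∀ T : ℕ, 1 ≤ T → ∃ (c : ℝ) (X₀ : ℕ), 0 < c ∧ ∀ X : ℕ, X₀ ≤ X →
  c * X / Real.log X ≤ (((Icc 1 X).filter (fun p => p.Prime ∧ p % (4 * T) = 4 * T - 1)).card : ℝ)

/-- CHI. The quadratic character of a nonsquare. -/
def ChiStmt : Prop := ∀ a : ℤ, a ≠ 0 → ¬ IsSquare a →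
  ∃ χ : DirichletCharacter ℂ (4 * a.natAbs), χ ≠ 1 ∧
    ∀ n : ℕ, n.Coprime (4 * a.natAbs) → χ (n : ZMod (4 * a.natAbs)) = ((jacobiSym a n : ℤ) : ℂ)

/-- PHT. The primes with `PP a`, weights `log p / p`, uniformly in `a`.
(from CHI and `MP_6bc78b_nt.SW.siegel_walfisz`, and Mertens `MP_ba0fa5_ag.H72.nmert1`) -/
def PhtStmt : Prop := ∃ (c C : ℝ) (y₀ : ℕ), 0 < c ∧ ∀ (a : ℤ) (Y Z : ℕ), y₀ ≤ Y → Y ≤ Z → a ≠ 0 →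
  ¬ IsSquare a → (4 * a.natAbs : ℝ) ≤ Real.log Y ^ 6 →
  c * (Real.log Z - Real.log Y) - C ≤
    ∑ p ∈ (Ioc Y Z).filter (fun p => PP a p), Real.log p / p

/-- PHLOW. (from PHT) -/
def PhlowStmt : Prop := ∃ (c C : ℝ) (y₀ : ℕ), 0 < c ∧ ∀ (a : ℤ) (Y Z : ℕ), y₀ ≤ Y → Y ≤ Z → a ≠ 0 →
  ¬ IsSquare a → (4 * a.natAbs : ℝ) ≤ Real.log Y ^ 6 →
  c * Real.log (Real.log Z / Real.log Y) - C ≤
    ∑ p ∈ (Ioc Y Z).filter (fun p => PP a p), (1 : ℝ) / p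

/-- SIEV. The sieve bound: two classes for `PP a`, the class of `0` for the other primes.
(from PHLOW, `MP_ba0fa5_ag.H48.nsieve`, `MP_ba0fa5_ag.H72.nrankin`) -/
def SievStmt : Prop := ∃ (B X₀ : ℕ) (δ : ℝ), 2 ≤ B ∧ 0 < δ ∧ ∀ (X : ℕ) (a : ℤ) (Ω : ℕ → Finset ℕ),
  X₀ ≤ X → a ≠ 0 → ¬ IsSquare a → (4 * a.natAbs : ℝ) ≤ Real.log (Real.log X) ^ 6 →
  (∀ l : ℕ, l.Prime → yy X < l → l ≤ zz B X → (∀ r ∈ Ω l, r < l) ∧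
    (PP a l → (Ω l).card = 2) ∧ (¬ PP a l → (Ω l).card = 1)) →
  (((range (X + 1)).filter
    (fun q => ∀ l : ℕ, l.Prime → yy X < l → l ≤ zz B X → q % l ∉ Ω l)).card : ℝ) ≤
      X / Real.log X ^ (1 + δ)

/-- LOC. The local conditions. (from ROOTS) -/
def LocStmt : Prop := ∀ (a : ℤ) (m l : ℕ) (h : ℤ), a = h * m → 1 ≤ m → PP a l →
  ((range l).filter (fun x : ℕ => (l : ℤ) ∣ m * (x : ℤ) ^ 2 + h)).card = 2 ∧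
  ∀ q u v : ℕ, ((u ^ 2 + v ^ 2 : ℕ) : ℤ) = m * (q : ℤ) ^ 2 + h →
    (l : ℤ) ∣ m * (q : ℤ) ^ 2 + h → ((l ^ 2 : ℕ) : ℤ) ∣ m * (q : ℤ) ^ 2 + h

/-- SQF. Few `q` such that `m q² + h` is divisible by the square of a large prime. (from ROOTS) -/
def SqfStmt : Prop := ∀ (m X y z : ℕ) (h : ℤ), 1 ≤ m → h ≠ 0 → 1 ≤ y → 1 ≤ X →
  (((Icc 1 X).filter (fun q : ℕ => ∃ l : ℕ, l.Prime ∧ y < l ∧ l ≤ z ∧
    ((l ^ 2 : ℕ) : ℤ) ∣ m * (q : ℤ) ^ 2 + h)).card : ℝ) ≤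
    12 * m * h.natAbs * (X / y + z)

/-- SQC. Few primes `q` such that `m q² + h` is a sum of two squares. (from SIEV, LOC, SQF) -/
def SqcStmt : Prop := ∃ (δ : ℝ) (X₀ : ℕ), 0 < δ ∧ ∀ (X m : ℕ) (h : ℤ), X₀ ≤ X → 1 ≤ m → h ≠ 0 →
  ¬ IsSquare (h * m) → (4 * m * h.natAbs : ℝ) ≤ Real.log (Real.log X) ^ 6 →
  (((Icc 1 X).filter (fun q : ℕ => q.Prime ∧
    ∃ u v : ℕ, ((u ^ 2 + v ^ 2 : ℕ) : ℤ) = m * (q : ℤ) ^ 2 + h)).card : ℝ) ≤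
      X / Real.log X ^ (1 + δ)

/-- TAIL. (from DIVAVG, REPT) -/
def TailStmt : Prop := ∀ T b : ℕ, 1 ≤ T → 2 ≤ b → ∃ (C₁ : ℝ) (X₀ : ℕ), 0 < C₁ ∧
  ∀ X H m : ℕ, X₀ ≤ X → 1 ≤ m → (m : ℝ) ≤ Real.log X → C₁ * Real.log (Real.log X) ≤ H →
  (((Icc 1 X).filter (fun q : ℕ => ∃ h : ℕ, H < h ∧
    b ^ h < rep (m * q ^ 2 + h) ^ (4 * T))).card : ℝ) ≤ X / Real.log X ^ 2

/-- GP. The good prime. (from PAP, SQC, TAIL) -/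
def GpStmt : Prop := ∀ T b : ℕ, 1 ≤ T → 2 ≤ b → ∃ H₀ : ℕ, ∀ H : ℕ, H₀ ≤ H → ∀ m : ℕ, 1 ≤ m →
  m ≤ H ^ 2 → (∀ h : ℕ, 0 < h → h ≤ H → ¬ IsSquare (h * m)) →
  ∃ q : ℕ, q.Prime ∧ q % (4 * T) = 4 * T - 1 ∧ H ≤ m * q ^ 2 ∧
    (∀ u v : ℕ, u ^ 2 + v ^ 2 ≠ m * q ^ 2 →
      u ^ 2 + v ^ 2 + H < m * q ^ 2 ∨ m * q ^ 2 + H < u ^ 2 + v ^ 2) ∧
    ∀ h : ℕ, H < h → rep (m * q ^ 2 + h) ^ (4 * T) ≤ b ^ h

/-! ## Main theorem -/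

/-- MAIN. (from NF, DIG, CANON, WINDOW, MZ, DIL, GP) -/
def MainStmt : Prop := ∀ (b : ℕ) (ξ : ℝ), 2 ≤ b → Irrational ξ →
  (∃ α β γ : ℤ, α ≠ 0 ∧ α * ξ ^ 2 + β * ξ + γ = 0) →
  ¬ ∃ (k : ℕ) (σ : Fin k → List (Fin k)) (a : Fin k) (u : ℕ → Fin k) (τ : Fin k → ℤ),
    (∀ (n i : ℕ) (x : Fin k),
        ((fun l : List (Fin k) => l.flatMap σ)^[n] [a])[i]? = some x → u i = x) ∧
    (∀ m : ℕ, ∃ n : ℕ, m < ((fun l : List (Fin k) => l.flatMap σ)^[n] [a]).length) ∧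
    (∃ K : ℕ, ∀ n : ℕ,
      ((fun l : List (Fin k) => l.flatMap σ)^[n] [a]).length ≤ K * (n + 1) ^ 2) ∧
    ∀ n : ℕ, τ (u n) = ⌊ξ * (b : ℝ) ^ (n + 1)⌋ % (b : ℤ)

end Pool.Agent.Lib.MP_2e793b_nt
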